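import Pool.Agent.Q88.PS.Stm

/-!
# Project PS, job SGM: generic directions are singular
-/

set_option autoImplicit false

open MeasureTheory Set Filter Topology
open scoped ENNReal NNReal

namespace Pool.Agent.Q238.PS

open Pool.Agent.Q88.PS

lemma cont_pr (lam : ℝ) : Continuous (pr lam) := by
  unfold pr
  fun_prop

lemma cont_res (lam : ℝ) : ∀ w : List D, Continuous (fun τ => res lam τ w)
  | [] => continuous_id
  | d :: w => (cont_res lam w).comp (by fun_prop : Continuous fun τ : ℝ => 8 * τ - dl lam d)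

lemma cover (h : S_base) : ∀ n : ℕ, ∀ x ∈ KK, ∃ w ∈ wds n, x ∈ psw w '' KK
  | 0, x, hx => ⟨[], mem_wds.mpr rfl, x, hx, rfl⟩
  | n + 1, x, hx => by
    rw [h.2.2.1] at hx
    obtain ⟨d, hd⟩ := mem_iUnion.mp hx
    obtain ⟨y, hy, rfl⟩ := hd
    obtain ⟨w, hw, z, hz, rfl⟩ := cover h n y hy
    exact ⟨d :: w, mem_wds.mpr (by simp [mem_wds.mp hw]), z, hz, rfl⟩

theorem sgm (h : S_base) (h1 : S_hsc) (h2 : S_hfin) (h3 : S_hit) : S_sgm := by
  intro lam hlam hSG
  classical
  choose n W hW hcard hvol using hSG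
  let B : ℕ → Set ℝ := fun k => {τ | ∃ w ∈ W k, res lam τ w ∈ Icc (0 : ℝ) (LL lam)}
  have hBm : ∀ k, MeasurableSet (B k) := by
    intro k
    have : B k = ⋃ w ∈ W k, (fun τ => res lam τ w) ⁻¹' Icc (0 : ℝ) (LL lam) := by
      ext τ
      simp only [B, mem_ofPred_eq, mem_iUnion, mem_preimage, exists_prop]
    rw [this]
    exact Finset.measurableSet_biUnion _ fun w _ =>
      measurableSet_Icc.preimage (cont_res lam w).measurable
  have hBv : ∀ k, volume (B k) ≤ ENNReal.ofReal ((1 / 2 : ℝ) ^ k) := fun k => (hvol k).le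
  -- the measure of the part of `K` over the complement of `B k`
  have hμ : ∀ k, (μH[(4 / 3 : ℝ)] : Measure E2) (pr lam ⁻¹' (B k)ᶜ ∩ KK) ≤
      ENNReal.ofReal ((1 / 2 : ℝ) ^ k) := by
    intro k
    have hsub : pr lam ⁻¹' (B k)ᶜ ∩ KK ⊆ ⋃ w ∈ wds (n k) \ W k, psw w '' KK := by
      rintro x ⟨hxB, hxK⟩
      obtain ⟨w, hw, hxw⟩ := cover h (n k) x hxK
      simp only [mem_iUnion]
      refine ⟨w, Finset.mem_sdiff.mpr ⟨hw, fun hwW => hxB ?_⟩, hxw⟩
      exact ⟨w, hwW, (h3 lam hlam (pr lam x) w).mp ⟨x, ⟨hxK, rfl⟩, hxw⟩⟩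
    refine le_trans (measure_mono hsub) ?_
    refine le_trans (measure_biUnion_finset_le _ _) ?_
    have hle : ∀ w ∈ wds (n k) \ W k, (μH[(4 / 3 : ℝ)] : Measure E2) (psw w '' KK) ≤
        ENNReal.ofReal ((1 / 16 : ℝ) ^ (n k)) := by
      intro w hw
      rw [h1 w KK, mem_wds.mp (Finset.mem_sdiff.mp hw).1]
      have h16 : ENNReal.ofReal ((1 / 16 : ℝ) ^ (n k)) = (16 : ℝ≥0∞)⁻¹ ^ (n k) := by
        rw [ENNReal.ofReal_pow (by norm_num), one_div, ENNReal.ofReal_inv_of_pos (by norm_num),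
          ENNReal.ofReal_ofNat]
      rw [h16]
      calc (16 : ℝ≥0∞)⁻¹ ^ (n k) * (μH[(4 / 3 : ℝ)] : Measure E2) KK
          ≤ (16 : ℝ≥0∞)⁻¹ ^ (n k) * 1 := mul_le_mul_right h2 _
        _ = (16 : ℝ≥0∞)⁻¹ ^ (n k) := mul_one _
    refine le_trans (Finset.sum_le_sum hle) ?_
    rw [Finset.sum_const, nsmul_eq_mul, ← ENNReal.ofReal_natCast,
      ← ENNReal.ofReal_mul (Nat.cast_nonneg _)]
    refine ENNReal.ofReal_le_ofReal ?_
    have hc : ((wds (n k) \ W k).card : ℝ) = 16 ^ (n k) - (W k).card := by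
      have h4 := Finset.card_sdiff_add_card_eq_card (hW k)
      rw [card_wds] at h4
      have h5 : ((wds (n k) \ W k).card : ℝ) + (W k).card = 16 ^ (n k) := by exact_mod_cast h4
      linarith
    rw [hc, one_div, inv_pow (16 : ℝ), ← div_eq_mul_inv, div_le_iff₀ (by positivity)]
    have h6 := hcard k
    nlinarith [h6]
  refine ⟨(limsup B atTop)ᶜ, (MeasurableSet.measurableSet_limsup hBm).compl, ?_, ?_⟩
  · rw [Measure.map_apply (cont_pr lam).measurable (MeasurableSet.measurableSet_limsup hBm).compl,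
      Measure.restrict_apply ((MeasurableSet.measurableSet_limsup hBm).compl.preimage
        (cont_pr lam).measurable)]
    have hsub : pr lam ⁻¹' (limsup B atTop)ᶜ ∩ KK ⊆
        ⋃ m : ℕ, ⋂ k ≥ m, (pr lam ⁻¹' (B k)ᶜ ∩ KK) := by
      rintro x ⟨hx, hxK⟩
      rw [mem_preimage, mem_compl_iff, Filter.limsup_eq_iInf_iSup_of_nat] at hx
      simp only [iInf_eq_iInter, iSup_eq_iUnion, mem_iInter, mem_iUnion, not_forall, not_exists,
        exists_prop, not_and] at hx
      obtain ⟨m, hm⟩ := hx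
      simp only [mem_iUnion, mem_iInter]
      exact ⟨m, fun k hk => ⟨hm k hk, hxK⟩⟩
    refine measure_mono_null hsub (measure_iUnion_null fun m => ?_)
    have ht : Tendsto (fun k : ℕ => ENNReal.ofReal ((1 / 2 : ℝ) ^ k)) atTop (𝓝 0) := by
      have := (tendsto_pow_atTop_nhds_zero_of_lt_one (r := (1 / 2 : ℝ)) (by norm_num)
        (by norm_num))
      have h5 := ENNReal.tendsto_ofReal this
      rwa [ENNReal.ofReal_zero] at h5
    refine le_antisymm (ge_of_tendsto ht ?_) zero_le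
    filter_upwards [eventually_ge_atTop m] with k hk
    refine le_trans (measure_mono ?_) (hμ k)
    exact biInter_subset_of_mem (show k ∈ {k | k ≥ m} from hk)
  · rw [compl_compl]
    refine measure_limsup_atTop_eq_zero ?_
    refine ne_top_of_le_ne_top ?_ (ENNReal.tsum_le_tsum hBv)
    rw [← ENNReal.ofReal_tsum_of_nonneg (fun _ => by positivity)
      (summable_geometric_of_lt_one (by norm_num) (by norm_num))]
    exact ENNReal.ofReal_ne_top

end Pool.Agent.Q238.PS
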