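import Pool.Agent.Q88.PS.Stm

/-!
# Project PS, job SNG: the directions `2 p / q` are singular
-/

set_option autoImplicit false

open MeasureTheory Set Filter Topology
open scoped ENNReal NNReal

namespace Pool.Agent.Q238.PS

open Pool.Agent.Q88.PS

lemma zd_le (p q : ℕ) (d : D) : zd p q d ≤ 3 * q + 10 * p := by
  have h1 : da d ≤ 3 := by
    unfold da
    have := d.1.isLt
    omega
  have h2 : db d ≤ 5 := by
    unfold db
    have := d.2.isLt
    omega
  have h3 : q * da d ≤ q * 3 := Nat.mul_le_mul_left _ h1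
  have h4 : 2 * p * db d ≤ 2 * p * 5 := Nat.mul_le_mul_left _ h2
  unfold zd
  omega

lemma zw_lt (p q : ℕ) (hq : 0 < q) :
    ∀ w : List D, zw p q w < (3 * q + 10 * p) * 8 ^ w.length
  | [] => by
    simp only [zw, List.length_nil, pow_zero, mul_one]
    omega
  | d :: w => by
    have h1 := zw_lt p q hq w
    have h3 : 8 ^ w.length * zd p q d ≤ 8 ^ w.length * (3 * q + 10 * p) :=
      Nat.mul_le_mul_left _ (zd_le p q d)
    have h4 : (3 * q + 10 * p) * 8 ^ (w.length + 1) =
      8 * ((3 * q + 10 * p) * 8 ^ w.length) := by ring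
    rw [mul_comm (8 ^ w.length) (3 * q + 10 * p)] at h3
    simp only [zw, List.length_cons]
    rw [h4]
    omega

lemma res_eq (p q : ℕ) (hq : 0 < q) :
    ∀ (w : List D) (τ : ℝ),
      res (2 * (p : ℝ) / q) τ w = 8 ^ w.length * τ - (zw p q w : ℝ) / q
  | [], τ => by simp [res, zw]
  | d :: w, τ => by
    have hq' : (q : ℝ) ≠ 0 := by positivity
    have h1 := res_eq p q hq w (8 * τ - dl (2 * (p : ℝ) / q) d)
    simp only [res, zw, List.length_cons]
    rw [h1]
    unfold dl zd
    push_cast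
    field_simp
    ring

theorem sng (h : S_kap) (h1 : S_var) (h2 : S_uni) : S_sng := by
  intro p q hp hq hlam ε hε
  have hq0 : 0 < q := hq.pos
  obtain ⟨c, hc, hkap⟩ := h p q hp hq
  set M : ℕ := 3 * q + 10 * p with hM
  have hMpos : (0 : ℝ) < M := by
    have : 0 < M := by omega
    exact_mod_cast this
  set L : ℝ := LL (2 * (p : ℝ) / q) with hL
  have hLpos : 0 < L := by
    rw [hL]
    unfold LL
    have := hlam.1
    linarith
  -- the choice of `g`
  obtain ⟨g, hg1, hg⟩ : ∃ g : ℕ, 1 ≤ g ∧ 4 * Real.pi * (3 * q + 10 * p) / 8 ^ g ≤ c / 2 := by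
    have hpos : 0 < 4 * Real.pi * (3 * q + 10 * p : ℝ) := by
      have : (0 : ℝ) < 3 * q + 10 * p := by
        have : (0 : ℝ) < q := by exact_mod_cast hq0
        positivity
      have := Real.pi_pos
      positivity
    have ht : Tendsto (fun g : ℕ => 4 * Real.pi * (3 * q + 10 * p : ℝ) / 8 ^ g) atTop (𝓝 0) :=
      Tendsto.const_div_atTop (tendsto_pow_atTop_atTop_of_one_lt (by norm_num)) _
    have := (ht.eventually (gt_mem_nhds (show (0 : ℝ) < c / 2 by positivity))).and
      (eventually_ge_atTop 1)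
    obtain ⟨g, hg, hg1⟩ := this.exists
    exact ⟨g, hg1, hg.le⟩
  -- the choice of `k`
  obtain ⟨k, hk⟩ := exists_nat_gt (max 16 (4 * M * L) / (c ^ 2 * ε))
  have hcε : 0 < c ^ 2 * ε := by positivity
  rw [div_lt_iff₀ hcε] at hk
  have hk16 : 16 < k * (c ^ 2 * ε) := lt_of_le_of_lt (le_max_left _ _) hk
  have hkL : 4 * M * L < k * (c ^ 2 * ε) := lt_of_le_of_lt (le_max_right _ _) hk
  have hk0 : (0 : ℝ) < k := by
    by_contra hcon
    have : (k : ℝ) = 0 := le_antisymm (not_lt.mp hcon) (Nat.cast_nonneg _)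
    rw [this] at hk16
    linarith
  classical
  set n : ℕ := k * g with hn
  let W : Finset (List D) := (wds n).filter fun w => k * (c / 2) < ‖Tk g k (zw p q w)‖
  have hW : W ⊆ wds n := Finset.filter_subset _ _
  have hWc : (((wds n).filter fun w => ¬ k * (c / 2) < ‖Tk g k (zw p q w)‖).card : ℝ) *
      (k * (c / 2)) ^ 2 ≤ 4 * k * 16 ^ n := by
    refine le_trans ?_ (h1 p q g k (c / 2) (by positivity) hg)
    refine mul_le_mul_of_nonneg_right ?_ (by positivity)
    norm_cast
    refine Finset.card_le_card ?_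
    intro w hw
    rw [Finset.mem_filter] at hw ⊢
    refine ⟨hw.1, ?_⟩
    have h3 := not_lt.mp hw.2
    have h4 : ‖(k : ℂ) * kap p q g‖ = k * ‖kap p q g‖ := by
      rw [norm_mul, Complex.norm_natCast]
    have h5 : k * c ≤ k * ‖kap p q g‖ := mul_le_mul_of_nonneg_left (hkap g) hk0.le
    have h6 : ‖(k : ℂ) * kap p q g‖ - ‖Tk g k (zw p q w)‖ ≤
        ‖Tk g k (zw p q w) - k * kap p q g‖ := by
      rw [norm_sub_rev]
      exact norm_sub_norm_le _ _
    rw [h4] at h6
    linarith
  have hcard : (W.card : ℝ) +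
      (((wds n).filter fun w => ¬ k * (c / 2) < ‖Tk g k (zw p q w)‖).card : ℝ) = 16 ^ n := by
    have := Finset.card_filter_add_card_filter_not (s := wds n)
      (fun w => k * (c / 2) < ‖Tk g k (zw p q w)‖)
    rw [card_wds] at this
    exact_mod_cast this
  refine ⟨n, W, hW, ?_, ?_⟩
  · -- cardinality
    set N : ℝ := (((wds n).filter fun w => ¬ k * (c / 2) < ‖Tk g k (zw p q w)‖).card : ℝ) with hN
    have hN0 : 0 ≤ N := Nat.cast_nonneg _
    have h3 : N ≤ ε * 16 ^ n := by
      have h4 : N * (k * c ^ 2) ≤ 16 * 16 ^ n := by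
        have h5 : N * (k * (c / 2)) ^ 2 = (N * (k * c ^ 2)) * (k / 4) := by ring
        rw [h5] at hWc
        have h6 : 4 * k * (16 : ℝ) ^ n = (16 * 16 ^ n) * (k / 4) := by ring
        rw [h6] at hWc
        exact le_of_mul_le_mul_right hWc (by positivity)
      have h7 : (16 : ℝ) * 16 ^ n ≤ (ε * 16 ^ n) * (k * c ^ 2) := by
        have h8 : (ε * (16 : ℝ) ^ n) * (k * c ^ 2) = (k * (c ^ 2 * ε)) * 16 ^ n := by ring
        rw [h8]
        exact mul_le_mul_of_nonneg_right hk16.le (by positivity)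
      exact le_of_mul_le_mul_right (h4.trans h7) (by positivity)
    have h4 : (W.card : ℝ) = 16 ^ n - N := by linarith
    rw [h4]
    linarith
  · -- measure
    let V : Finset ℕ := (Finset.range (M * 8 ^ n)).filter fun z => k * (c / 2) < ‖Tk g k z‖
    have hV : (V.card : ℝ) * (k * (c / 2)) ^ 2 ≤ M * k * 8 ^ n := by
      have h3 := h2 g k M hg1
      rw [← hn] at h3
      rw [← h3, ← nsmul_eq_mul]
      refine le_trans ?_ (Finset.sum_le_sum_of_subset_of_nonneg
        (Finset.filter_subset (fun z => k * (c / 2) < ‖Tk g k z‖) (Finset.range (M * 8 ^ n)))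
        (fun _ _ _ => by positivity))
      refine Finset.card_nsmul_le_sum V _ _ ?_
      intro z hz
      have := (Finset.mem_filter.mp hz).2
      exact pow_le_pow_left₀ (by positivity) this.le 2
    have hsub : {τ | ∃ w ∈ W, res (2 * (p : ℝ) / q) τ w ∈ Icc (0 : ℝ) L} ⊆
        ⋃ z ∈ V, Icc ((z : ℝ) / q / 8 ^ n) (((z : ℝ) / q + L) / 8 ^ n) := by
      rintro τ ⟨w, hw, hres⟩
      rw [res_eq p q hq0 w τ] at hres
      have hw' := Finset.mem_filter.mp hw
      have hlen : w.length = n := mem_wds.mp hw'.1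
      rw [hlen] at hres
      simp only [mem_iUnion]
      refine ⟨zw p q w, ?_, ?_⟩
      · refine Finset.mem_filter.mpr ⟨Finset.mem_range.mpr ?_, hw'.2⟩
        have := zw_lt p q hq0 w
        rw [hlen] at this
        exact this
      · have h8 : (0 : ℝ) < 8 ^ n := by positivity
        refine ⟨?_, ?_⟩
        · rw [div_le_iff₀ h8]
          have := hres.1
          linarith
        · rw [le_div_iff₀ h8]
          have := hres.2
          linarith
    refine lt_of_le_of_lt (measure_mono hsub) ?_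
    refine lt_of_le_of_lt (measure_biUnion_finset_le V _) ?_
    have hvol : ∀ z ∈ V, volume (Icc ((z : ℝ) / q / 8 ^ n) (((z : ℝ) / q + L) / 8 ^ n)) =
        ENNReal.ofReal (L / 8 ^ n) := by
      intro z _
      rw [Real.volume_Icc]
      congr 1
      ring
    rw [Finset.sum_congr rfl hvol, Finset.sum_const, nsmul_eq_mul, ← ENNReal.ofReal_natCast,
      ← ENNReal.ofReal_mul (Nat.cast_nonneg _), ENNReal.ofReal_lt_ofReal_iff hε]
    have h8 : (0 : ℝ) < 8 ^ n := by positivity
    rw [← mul_div_assoc, div_lt_iff₀ h8]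
    have h3 : (V.card : ℝ) * (k * c ^ 2) ≤ 4 * M * 8 ^ n := by
      have h5 : (V.card : ℝ) * (k * (c / 2)) ^ 2 = (V.card * (k * c ^ 2)) * (k / 4) := by ring
      rw [h5] at hV
      have h6 : (M : ℝ) * k * 8 ^ n = (4 * M * 8 ^ n) * (k / 4) := by ring
      rw [h6] at hV
      exact le_of_mul_le_mul_right hV (by positivity)
    have hkc : (0 : ℝ) < k * c ^ 2 := by positivity
    refine lt_of_mul_lt_mul_right ?_ hkc.le
    calc (V.card : ℝ) * L * (k * c ^ 2) = (V.card * (k * c ^ 2)) * L := by ring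
      _ ≤ (4 * M * 8 ^ n) * L := mul_le_mul_of_nonneg_right h3 hLpos.le
      _ = (4 * M * L) * 8 ^ n := by ring
      _ < (k * (c ^ 2 * ε)) * 8 ^ n := mul_lt_mul_of_pos_right hkL h8
      _ = ε * 8 ^ n * (k * c ^ 2) := by ring

end Pool.Agent.Q238.PS
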