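import Pool.Agent.Q88.PS.Stm

/-!
# Project PS, job UGO: the directions with the packing property of level `k` are an open set
-/

set_option autoImplicit false

open MeasureTheory Set Filter Topology
open scoped ENNReal NNReal

namespace Pool.Agent.Q238.PS

open Pool.Agent.Q88.PS

lemma cont_LL : Continuous LL := by
  unfold LL
  fun_prop

lemma cont_dl (d : D) : Continuous (fun lam : ℝ => dl lam d) := by
  unfold dl
  fun_prop

lemma isOpen_ind : IsOpen {x : ℝ × ℝ | x.2 ∈ Ioo (0 : ℝ) (LL x.1)} :=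
  (isOpen_lt continuous_const continuous_snd).inter
    (isOpen_lt continuous_snd (cont_LL.comp continuous_fst))

lemma lsc_ind : LowerSemicontinuous fun x : ℝ × ℝ => ind x.1 x.2 := by
  have h : (fun x : ℝ × ℝ => ind x.1 x.2) =
      {x : ℝ × ℝ | x.2 ∈ Ioo (0 : ℝ) (LL x.1)}.indicator (fun _ => 1) := by
    funext x
    unfold ind
    by_cases hx : x.2 ∈ Ioo (0 : ℝ) (LL x.1)
    · rw [indicator_of_mem hx, indicator_of_mem (show x ∈ {x : ℝ × ℝ | x.2 ∈ Ioo (0 : ℝ) (LL x.1)}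
        from hx)]
    · rw [indicator_of_notMem hx,
        indicator_of_notMem (show x ∉ {x : ℝ × ℝ | x.2 ∈ Ioo (0 : ℝ) (LL x.1)} from hx)]
  rw [h]
  exact isOpen_ind.lowerSemicontinuous_indicator zero_le

/-- Multiplication by `1/2` preserves lower semicontinuity. -/
lemma lsc_half {f : ℝ × ℝ → ℝ≥0∞} (hf : LowerSemicontinuous f) :
    LowerSemicontinuous fun x => 2⁻¹ * f x := by
  have hc : Continuous fun y : ℝ≥0∞ => 2⁻¹ * y :=
    ENNReal.continuous_const_mul (by simp)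
  exact hc.comp_lowerSemicontinuous hf fun a b hab => mul_le_mul_right hab _

lemma lsc_vv : ∀ n : ℕ, LowerSemicontinuous fun x : ℝ × ℝ => vv x.1 n x.2
  | 0 => lsc_ind
  | n + 1 => by
    have ih := lsc_vv n
    have hd : ∀ d : D, LowerSemicontinuous fun x : ℝ × ℝ => vv x.1 n (8 * x.2 - dl x.1 d) := by
      intro d
      have hc : Continuous fun x : ℝ × ℝ => (x.1, 8 * x.2 - dl x.1 d) :=
        continuous_fst.prodMk ((continuous_const.mul continuous_snd).sub
          ((cont_dl d).comp continuous_fst))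
      exact LowerSemicontinuous.comp (f := fun y : ℝ × ℝ => vv y.1 n y.2) ih hc
    have hs : LowerSemicontinuous fun x : ℝ × ℝ => ∑ d : D, vv x.1 n (8 * x.2 - dl x.1 d) :=
      lowerSemicontinuous_sum fun d _ => hd d
    have := lsc_ind.sup (lsc_half hs)
    exact this

lemma lsc_Vs : LowerSemicontinuous fun x : ℝ × ℝ => Vs x.1 x.2 := by
  unfold Vs
  exact lowerSemicontinuous_iSup fun n => lsc_vv n

theorem ugo : S_ugo := by
  intro k
  have hO : IsOpen {x : ℝ × ℝ | (k : ℝ≥0∞) < Vs x.1 x.2} := by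
    have := lsc_Vs.isOpen_preimage (k : ℝ≥0∞)
    exact this
  rw [isOpen_iff_mem_nhds]
  intro lam hlam
  have hlt : ENNReal.ofReal (LL lam - 1 / (k + 1)) < volume {τ | (k : ℝ≥0∞) < Vs lam τ} := hlam
  obtain ⟨c, hc1, hc2⟩ := exists_between hlt
  have hsec : IsOpen {τ : ℝ | (k : ℝ≥0∞) < Vs lam τ} :=
    hO.preimage (by fun_prop : Continuous fun τ : ℝ => (lam, τ))
  obtain ⟨C, hCs, hCc, hCv⟩ := hsec.exists_lt_isCompact hc2
  have htube : {lam} ×ˢ C ⊆ {x : ℝ × ℝ | (k : ℝ≥0∞) < Vs x.1 x.2} := by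
    rintro ⟨a, τ⟩ ⟨ha, hτ⟩
    have ha' : a = lam := ha
    subst ha'
    exact hCs hτ
  obtain ⟨U, V, hU, hV, hlU, hCV, hUV⟩ :=
    generalized_tube_lemma isCompact_singleton hCc hO htube
  have h1 : ∀ᶠ a in 𝓝 lam, a ∈ U := hU.mem_nhds (hlU rfl)
  have hcont : Continuous fun a : ℝ => ENNReal.ofReal (LL a - 1 / (k + 1)) :=
    ENNReal.continuous_ofReal.comp (cont_LL.sub continuous_const)
  have h2 : ∀ᶠ a in 𝓝 lam, ENNReal.ofReal (LL a - 1 / (k + 1)) < c :=
    (hcont.tendsto lam).eventually (gt_mem_nhds hc1)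
  filter_upwards [h1, h2] with a haU hac
  refine lt_of_lt_of_le (hac.trans hCv) (measure_mono ?_)
  intro τ hτ
  exact hUV (show (a, τ) ∈ U ×ˢ V from ⟨haU, hCV hτ⟩)

end Pool.Agent.Q238.PS
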